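import Pool.Agent.V1134.AffOrd.Cyc

set_option autoImplicit false

/-!
# Finite groups with an affine map of order larger than half the group order are metabelian

An affine map of `G` is `A x = t * α x` with `t ∈ G` and `α` an automorphism of `G`. If `G` is finite
and solvable and `A` has order (as a permutation of `G`) larger than `|G| / 2`, then `G` is
metabelian; moreover its derived subgroup is cyclic.
-/

namespace Pool.Agent.Results.MP_914128_al.LargeAffineOrder

open Pool.Agent.V1134.AffOrd

theorem result {G : Type*} [Group G] [Finite G] [Group.IsSolvable G] (t : G) (α : G ≃* G)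
    (A : Equiv.Perm G) (hA : ∀ x : G, A x = t * α x) (hord : Nat.card G < 2 * orderOf A) :
    derivedSeries G 2 = ⊥ ∧ IsCyclic (commutator G) := by
  have h : A = P (MulAut.conj t * α) t := by
    ext x
    rw [hA, P_apply, MulAut.mul_apply, MulAut.conj_apply]
    group
  rw [h] at hord
  refine ⟨?_, cyc G _ t hord⟩
  have h2 := meta_ind _ G _ t rfl hord
  rw [derivedSeries_succ, derivedSeries_one]
  exact h2

end Pool.Agent.Results.MP_914128_al.LargeAffineOrder
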